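import Pool.Agent.TH36.M2.Op

set_option autoImplicit false

namespace Pool.Agent.TH36.M2

variable {F A E : Type*} [Field F] [NonUnitalNonAssocRing A] [Module F A] [Ring E] [Algebra F E]
  {ρ : A →ₗ[F] E}

theorem U_mul_id (Y : Submodule F E) : U ρ * (U ρ * Y * U ρ) ≤ U ρ * Y * U ρ := by
  rw [← mul_assoc, ← mul_assoc]
  exact mul_le_mul' (mul_le_mul' (U_mul_U ρ) le_rfl) le_rfl

theorem id_mul_U (Y : Submodule F E) : U ρ * Y * U ρ * U ρ ≤ U ρ * Y * U ρ := by
  rw [mul_assoc (U ρ * Y)]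
  exact mul_le_mul' le_rfl (U_mul_U ρ)

theorem id_le_U {Y : Submodule F E} (hY : Y ≤ U ρ) : U ρ * Y * U ρ ≤ U ρ :=
  (mul_le_mul' ((mul_le_mul' le_rfl hY).trans (U_mul_U ρ)) le_rfl).trans (U_mul_U ρ)

theorem le_id (Y : Submodule F E) : Y ≤ U ρ * Y * U ρ := by
  have h1 : (1 : Submodule F E) ≤ U ρ := by
    rw [Submodule.one_le]
    exact one_mem_U ρ
  calc Y = 1 * Y * 1 := by rw [one_mul, mul_one]
    _ ≤ U ρ * Y * U ρ := mul_le_mul' (mul_le_mul' h1 le_rfl) h1

theorem range_le_U (Q : Submodule F A) : Submodule.map ρ Q ≤ U ρ := by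
  rintro _ ⟨x, _, rfl⟩
  exact rho_mem_U ρ x

theorem step_down
    (h1 : ∀ z w : A, ρ ((z * w) * z) + ρ z * ρ w * ρ z + ρ z * ρ z * ρ w + ρ (z * w) * ρ z = 0)
    (h2 : ∀ z y w : A, ρ ((z * w) * y + (y * w) * z) + ρ (y * w) * ρ z + ρ (z * w) * ρ y +
      ρ y * ρ w * ρ z + ρ z * ρ w * ρ y + ρ y * ρ z * ρ w + ρ z * ρ y * ρ w = 0)
    {n : ℕ} (hn : ∀ z : A, ρ z ^ (n + 1) = 0) (hcomm : ∀ x y : A, x * y = y * x)
    {P Q : Submodule F A} (hPQ : ∀ z ∈ P, ∀ b : A, z * b ∈ Q) (hQ : ∀ z ∈ Q, ∀ b : A, z * b ∈ Q)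
    (hfg : (Submodule.map ρ P).FG) {m : ℕ}
    (hm : (U ρ * Submodule.map ρ Q * U ρ) ^ m = ⊥) :
    ∃ m', (U ρ * Submodule.map ρ P * U ρ) ^ m' = ⊥ := by
  classical
  set J := U ρ * Submodule.map ρ Q * U ρ with hJ
  have hUJ : U ρ * J ≤ J := U_mul_id _
  have hJU : J * U ρ ≤ J := id_mul_U _
  have hJleU : J ≤ U ρ := id_le_U (range_le_U Q)
  have hQJ : ∀ z ∈ Q, ρ z ∈ J := fun z hz => le_id _ (Submodule.mem_map_of_mem hz)
  obtain ⟨t, ht⟩ := hfg
  have claim : ∀ t' : Finset E, (∀ e ∈ t', e ∈ Submodule.map ρ P) →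
      ∃ m', (U ρ * Submodule.span F (t' : Set E) * U ρ ⊔ J) ^ m' = ⊥ := by
    intro t'
    induction t' using Finset.induction_on with
    | empty =>
      intro _
      refine ⟨m, ?_⟩
      rw [Finset.coe_empty, Submodule.span_empty, Submodule.mul_bot, Submodule.bot_mul,
        bot_sup_eq, hm]
    | insert e t' he ih =>
      intro hsub
      obtain ⟨m', hm'⟩ := ih fun e' he' => hsub e' (Finset.mem_insert_of_mem he')
      obtain ⟨z, hz, rfl⟩ := hsub e (Finset.mem_insert_self _ _)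
      set K := U ρ * Submodule.span F (t' : Set E) * U ρ ⊔ J with hK
      set Jz := U ρ * Submodule.span F {ρ z} * U ρ with hJz
      have ht'U : Submodule.span F (t' : Set E) ≤ U ρ := by
        rw [Submodule.span_le]
        intro e' he'
        exact range_le_U P (hsub e' (Finset.mem_insert_of_mem he'))
      have hzU : Submodule.span F {ρ z} ≤ U ρ := by
        rw [Submodule.span_singleton_le_iff_mem]
        exact rho_mem_U ρ z
      have hKU : K ≤ U ρ := sup_le (id_le_U ht'U) hJleU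
      have hJzU : Jz ≤ U ρ := id_le_U hzU
      have hUK : U ρ * K ≤ K := by
        rw [hK, Submodule.mul_sup]
        exact sup_le_sup (U_mul_id _) hUJ
      have hKU' : K * U ρ ≤ K := by
        rw [hK, Submodule.sup_mul]
        exact sup_le_sup (id_mul_U _) hJU
      have a1 : Jz * K ≤ K := (mul_le_mul' hJzU le_rfl).trans hUK
      have a2 : K * Jz ≤ K := (mul_le_mul' le_rfl hJzU).trans hKU'
      have a3 : K * K ≤ K := (mul_le_mul' hKU le_rfl).trans hUK
      have b1 : Jz ^ (n + 1) ≤ J :=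
        key_ideal (fun u hu j hj => hUJ (Submodule.mul_mem_mul hu hj))
          (fun j hj u hu => hJU (Submodule.mul_mem_mul hj hu)) (h1 z) (h2 z)
          (fun b => hQJ _ (hPQ z hz b)) (fun b c => hQJ _ (hQ _ (hPQ z hz b) c))
          (fun b => by rw [hcomm]; exact hQJ _ (hPQ z hz b)) (hn z)
      have c1 : (Jz ⊔ K) ^ (n + 1) ≤ K :=
        (pow_sup_le a1 a2 a3 n).trans (sup_le (b1.trans le_sup_right) le_rfl)
      have e1 : U ρ * Submodule.span F ((insert (ρ z) t' : Finset E) : Set E) * U ρ ⊔ J =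
          Jz ⊔ K := by
        rw [Finset.coe_insert, Submodule.span_insert, Submodule.mul_sup, Submodule.sup_mul,
          sup_assoc]
      refine ⟨(n + 1) * m', ?_⟩
      rw [e1, pow_mul, eq_bot_iff, ← hm']
      exact pow_le_pow_left' c1 m'
  obtain ⟨m', hm'⟩ := claim t fun e he => by
    rw [← ht]; exact Submodule.subset_span he
  refine ⟨m', ?_⟩
  rw [eq_bot_iff, ← hm', ← ht]
  exact pow_le_pow_left' le_sup_left m'

/-- The operators generate a nilpotent ideal. -/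
theorem nilp
    (h1 : ∀ z w : A, ρ ((z * w) * z) + ρ z * ρ w * ρ z + ρ z * ρ z * ρ w + ρ (z * w) * ρ z = 0)
    (h2 : ∀ z y w : A, ρ ((z * w) * y + (y * w) * z) + ρ (y * w) * ρ z + ρ (z * w) * ρ y +
      ρ y * ρ w * ρ z + ρ z * ρ w * ρ y + ρ y * ρ z * ρ w + ρ z * ρ y * ρ w = 0)
    {n : ℕ} (hn : ∀ z : A, ρ z ^ (n + 1) = 0) (hcomm : ∀ x y : A, x * y = y * x)
    (P : ℕ → Submodule F A) (hPm : ∀ i, ∀ z ∈ P i, ∀ b : A, z * b ∈ P (i + 1))
    (hPd : ∀ i, P (i + 1) ≤ P i) (hfg : (Submodule.map ρ ⊤).FG) (N : ℕ)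
    (hN : ∀ z ∈ P N, ρ z = 0) :
    ∃ m, (U ρ * Submodule.map ρ (P 0) * U ρ) ^ m = ⊥ := by
  have hfg' : ∀ Q : Submodule F A, (Submodule.map ρ Q).FG := by
    intro Q
    haveI : IsNoetherian F (Submodule.map ρ ⊤) := isNoetherian_of_fg_of_noetherian _ hfg
    exact Submodule.FG.of_le hfg (Submodule.map_mono le_top)
  have key : ∀ k ≤ N, ∃ m, (U ρ * Submodule.map ρ (P (N - k)) * U ρ) ^ m = ⊥ := by
    intro k
    induction k with
    | zero =>
      intro _
      refine ⟨1, ?_⟩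
      have : Submodule.map ρ (P N) = ⊥ := by
        rw [eq_bot_iff]
        rintro _ ⟨z, hz, rfl⟩
        rw [hN z hz]
        exact Submodule.zero_mem _
      rw [pow_one, Nat.sub_zero, this, Submodule.mul_bot, Submodule.bot_mul]
    | succ k ih =>
      intro hk
      obtain ⟨m, hm⟩ := ih (by omega)
      have e : N - k = N - (k + 1) + 1 := by omega
      rw [e] at hm
      exact step_down h1 h2 hn hcomm (hPm _) (fun z hz b => hPd _ (hPm _ z hz b)) (hfg' _) hm
  obtain ⟨m, hm⟩ := key N le_rfl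
  rw [Nat.sub_self] at hm
  exact ⟨m, hm⟩

/-- products of `m` operators vanish -/
theorem prod_zero {m : ℕ} (hm : (U ρ * Submodule.map ρ ⊤ * U ρ) ^ m = ⊥) (l : List A)
    (hl : l.length = m) : (l.map ρ).prod = 0 := by
  have h : ∀ l : List A, (l.map ρ).prod ∈ (U ρ * Submodule.map ρ ⊤ * U ρ) ^ l.length := by
    intro l
    induction l with
    | nil =>
      rw [List.map_nil, List.prod_nil, List.length_nil, pow_zero]
      exact Submodule.one_le.1 le_rfl
    | cons a l ih =>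
      rw [List.map_cons, List.prod_cons, List.length_cons, pow_succ']
      exact Submodule.mul_mem_mul (le_id _ (Submodule.mem_map_of_mem Submodule.mem_top)) ih
  have := h l
  rw [hl, hm] at this
  exact (Submodule.mem_bot F).1 this

end Pool.Agent.TH36.M2
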