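import Mathlib

/-!
# Operators of Malcev bimodules in characteristic two: nilpotence

Abstract setting: a linear map `ρ : A → E` from a nonassociative algebra to an associative algebra
with the identity `ρ((xw)x) + ρ(x)ρ(w)ρ(x) + ρ(x)²ρ(w) + ρ(xw)ρ(x) = 0` and `ρ(x)^n = 0`.
-/

set_option autoImplicit false

namespace Pool.Agent.TH36.M2

section ideals

variable {F E : Type*} [Field F] [Ring E] [Algebra F E]

theorem pow_mul_absorb {J K : Submodule F E} (h1 : J * K ≤ K) : ∀ m : ℕ, J ^ m * K ≤ K := by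
  intro m
  induction m with
  | zero => rw [pow_zero, one_mul]
  | succ m ih =>
    rw [pow_succ, mul_assoc]
    exact (mul_le_mul_right h1 _).trans ih

theorem pow_sup_le {J K : Submodule F E} (h1 : J * K ≤ K) (h2 : K * J ≤ K) (h3 : K * K ≤ K) :
    ∀ m : ℕ, (J ⊔ K) ^ (m + 1) ≤ J ^ (m + 1) ⊔ K := by
  intro m
  induction m with
  | zero => rw [zero_add, pow_one, pow_one]
  | succ m ih =>
    rw [pow_succ (J ⊔ K) (m + 1)]
    refine (mul_le_mul' ih le_rfl).trans ?_
    rw [Submodule.sup_mul, Submodule.mul_sup, Submodule.mul_sup]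
    refine sup_le (sup_le ?_ ?_) (sup_le ?_ ?_)
    · rw [← pow_succ]; exact le_sup_left
    · exact (pow_mul_absorb h1 _).trans le_sup_right
    · exact h2.trans le_sup_right
    · exact h3.trans le_sup_right

/-- `(U W)^m ≤ U W^m` if `W U ≤ W` -/
theorem UW_pow {U W : Submodule F E} (hWU : W * U ≤ W) : ∀ m : ℕ,
    (U * W) ^ (m + 1) ≤ U * W ^ (m + 1) := by
  intro m
  induction m with
  | zero => rw [zero_add, pow_one, pow_one]
  | succ m ih =>
    rw [pow_succ (U * W) (m + 1)]
    refine (mul_le_mul' ih le_rfl).trans ?_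
    have h1 : W ^ (m + 1) * U ≤ W ^ (m + 1) := by
      rw [pow_succ, mul_assoc]
      exact mul_le_mul' le_rfl hWU
    calc U * W ^ (m + 1) * (U * W) = U * ((W ^ (m + 1) * U) * W) := by
          simp only [mul_assoc]
      _ ≤ U * (W ^ (m + 1) * W) :=
          mul_le_mul' le_rfl (mul_le_mul' h1 le_rfl)
      _ = U * W ^ (m + 1 + 1) := by rw [← pow_succ]

end ideals

variable {F A E : Type*} [Field F] [NonUnitalNonAssocRing A] [Module F A] [Ring E] [Algebra F E]

/-- the associative algebra generated by the operators -/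
def U (ρ : A →ₗ[F] E) : Submodule F E := Subalgebra.toSubmodule (Algebra.adjoin F (Set.range ρ))

variable (ρ : A →ₗ[F] E)

theorem one_mem_U : (1 : E) ∈ U ρ := (Algebra.adjoin F (Set.range ρ)).one_mem

theorem rho_mem_U (x : A) : ρ x ∈ U ρ := Algebra.subset_adjoin (Set.mem_range_self x)

theorem mul_mem_U {a b : E} (ha : a ∈ U ρ) (hb : b ∈ U ρ) : a * b ∈ U ρ :=
  (Algebra.adjoin F (Set.range ρ)).mul_mem ha hb

theorem U_mul_U : U ρ * U ρ ≤ U ρ := Submodule.mul_le.2 fun _ ha _ hb => mul_mem_U ρ ha hb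

theorem prod_mem_U (l : List A) : (l.map ρ).prod ∈ U ρ := by
  induction l with
  | nil => exact one_mem_U ρ
  | cons a l ih =>
    rw [List.map_cons, List.prod_cons]
    exact mul_mem_U ρ (rho_mem_U ρ a) ih

/-- `U` is spanned by the products of operators -/
theorem U_eq_span : U ρ = Submodule.span F (Set.range fun l : List A => (l.map ρ).prod) := by
  apply le_antisymm
  · intro u hu
    have h1 : u ∈ Submodule.span F (Submonoid.closure (Set.range ρ) : Set E) := by
      rw [← Algebra.adjoin_eq_span]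
      exact hu
    refine Submodule.span_mono ?_ h1
    intro v hv
    obtain ⟨l, hl, rfl⟩ := Submonoid.exists_list_of_mem_closure hv
    have : ∃ l' : List A, l'.map ρ = l := by
      clear hv h1
      induction l with
      | nil => exact ⟨[], rfl⟩
      | cons a l ih =>
        obtain ⟨b, hb⟩ := hl a (List.mem_cons_self)
        obtain ⟨l', hl'⟩ := ih fun y hy => hl y (List.mem_cons_of_mem _ hy)
        exact ⟨b :: l', by rw [List.map_cons, hb, hl']⟩
    obtain ⟨l', rfl⟩ := this
    exact ⟨l', rfl⟩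
  · rw [Submodule.span_le]
    rintro _ ⟨l, rfl⟩
    exact prod_mem_U ρ l

variable {ρ}

section key

variable {J : Submodule F E} (hUJ : ∀ u ∈ U ρ, ∀ j ∈ J, u * j ∈ J)
  (hJU : ∀ j ∈ J, ∀ u ∈ U ρ, j * u ∈ J) {z : A}
  (h1 : ∀ w : A, ρ ((z * w) * z) + ρ z * ρ w * ρ z + ρ z * ρ z * ρ w + ρ (z * w) * ρ z = 0)
  (h2 : ∀ y w : A, ρ ((z * w) * y + (y * w) * z) + ρ (y * w) * ρ z + ρ (z * w) * ρ y +
    ρ y * ρ w * ρ z + ρ z * ρ w * ρ y + ρ y * ρ z * ρ w + ρ z * ρ y * ρ w = 0)
  (hz1 : ∀ b : A, ρ (z * b) ∈ J) (hz2 : ∀ b c : A, ρ ((z * b) * c) ∈ J)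
  (hz3 : ∀ b : A, ρ (b * z) ∈ J)

include hUJ hJU h1 h2 hz1 hz2 hz3

/-- `Z u Z ∈ Z² U + J` for words `u` -/
theorem key_word : ∀ (n : ℕ) (l : List A), l.length = n →
    ρ z * (l.map ρ).prod * ρ z ∈ Submodule.span F {ρ z * ρ z} * U ρ ⊔ J := by
  set T : Submodule F E := Submodule.span F {ρ z * ρ z} * U ρ ⊔ J with hT
  have hTU : ∀ t ∈ T, ∀ u ∈ U ρ, t * u ∈ T := by
    intro t ht u hu
    obtain ⟨a, ha, j, hj, rfl⟩ := Submodule.mem_sup.1 ht
    rw [add_mul]
    refine T.add_mem ?_ (Submodule.mem_sup_right (hJU j hj u hu))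
    refine Submodule.mem_sup_left ?_
    have : a * u ∈ Submodule.span F {ρ z * ρ z} * U ρ * U ρ := Submodule.mul_mem_mul ha hu
    rw [mul_assoc] at this
    exact mul_le_mul' le_rfl (U_mul_U ρ) this
  have hJT : J ≤ T := le_sup_right
  have hZ2 : ∀ u ∈ U ρ, ρ z * ρ z * u ∈ T := fun u hu =>
    Submodule.mem_sup_left (Submodule.mul_mem_mul (Submodule.mem_span_singleton_self _) hu)
  intro n
  induction n using Nat.strong_induction_on with
  | _ n ih =>
    intro l hl
    rcases l.eq_nil_or_concat with rfl | ⟨L, w, rfl⟩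
    · simp only [List.map_nil, List.prod_nil, mul_one]
      have := hZ2 1 (one_mem_U ρ)
      rwa [mul_one] at this
    · rcases L.eq_nil_or_concat with rfl | ⟨R, y, rfl⟩
      · simp only [List.concat_eq_append, List.nil_append, List.map_cons, List.map_nil,
          List.prod_cons, List.prod_nil, mul_one]
        have e : ρ z * ρ w * ρ z = -(ρ ((z * w) * z) + ρ z * ρ z * ρ w + ρ (z * w) * ρ z) := by
          have := h1 w
          rw [eq_neg_iff_add_eq_zero]
          rw [← this]; abel
        rw [e]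
        refine T.neg_mem (T.add_mem (T.add_mem (hJT (hz2 w z)) (hZ2 _ (rho_mem_U ρ w)))
          (hJT (hJU _ (hz1 w) _ (rho_mem_U ρ z))))
      · simp only [List.concat_eq_append, List.length_append, List.length_cons,
          List.length_nil] at hl
        simp only [List.concat_eq_append, List.map_append, List.map_cons, List.map_nil,
          List.prod_append, List.prod_cons, List.prod_nil, mul_one]
        set Q : E := (R.map ρ).prod with hQ
        have hQU : Q ∈ U ρ := prod_mem_U ρ R
        have e : ρ y * ρ w * ρ z = -(ρ ((z * w) * y + (y * w) * z) + ρ (y * w) * ρ z +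
            ρ (z * w) * ρ y + ρ z * ρ w * ρ y + ρ y * ρ z * ρ w + ρ z * ρ y * ρ w) := by
          have := h2 y w
          rw [eq_neg_iff_add_eq_zero]
          rw [← this]; abel
        have e2 : ρ z * (Q * ρ y * ρ w) * ρ z = -((ρ z * Q) * ρ ((z * w) * y + (y * w) * z) +
            ρ z * (Q * ρ (y * w)) * ρ z + (ρ z * Q) * (ρ (z * w) * ρ y) +
            (ρ z * Q * ρ z) * (ρ w * ρ y) + (ρ z * (Q * ρ y) * ρ z) * ρ w +
            (ρ z * Q * ρ z) * (ρ y * ρ w)) := by
          have : ρ z * (Q * ρ y * ρ w) * ρ z = (ρ z * Q) * (ρ y * ρ w * ρ z) := by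
            simp only [mul_assoc]
          rw [this, e]
          simp only [mul_neg, mul_add, mul_assoc]
        rw [e2]
        have hZQ : ρ z * Q ∈ U ρ := mul_mem_U ρ (rho_mem_U ρ z) hQU
        have i1 : ρ z * Q * ρ z ∈ T := ih R.length (by omega) R rfl
        have i2 : ρ z * (Q * ρ y) * ρ z ∈ T := by
          have := ih (R ++ [y]).length (by simp; omega) (R ++ [y]) rfl
          simpa only [List.map_append, List.map_cons, List.map_nil, List.prod_append,
            List.prod_cons, List.prod_nil, mul_one] using this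
        have i3 : ρ z * (Q * ρ (y * w)) * ρ z ∈ T := by
          have := ih (R ++ [y * w]).length (by simp; omega) (R ++ [y * w]) rfl
          simpa only [List.map_append, List.map_cons, List.map_nil, List.prod_append,
            List.prod_cons, List.prod_nil, mul_one] using this
        have j1 : (ρ z * Q) * ρ ((z * w) * y + (y * w) * z) ∈ T := by
          refine hJT (hUJ _ hZQ _ ?_)
          rw [map_add]
          exact J.add_mem (hz2 w y) (hz3 _)
        have j2 : (ρ z * Q) * (ρ (z * w) * ρ y) ∈ T :=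
          hJT (hUJ _ hZQ _ (hJU _ (hz1 w) _ (rho_mem_U ρ y)))
        exact T.neg_mem (T.add_mem (T.add_mem (T.add_mem (T.add_mem (T.add_mem j1 i3) j2)
          (hTU _ i1 _ (mul_mem_U ρ (rho_mem_U ρ w) (rho_mem_U ρ y))))
          (hTU _ i2 _ (rho_mem_U ρ w)))
          (hTU _ i1 _ (mul_mem_U ρ (rho_mem_U ρ y) (rho_mem_U ρ w))))

/-- `Z U Z ≤ Z² U + J` -/
theorem key_ZUZ : Submodule.span F {ρ z} * U ρ * Submodule.span F {ρ z} ≤
    Submodule.span F {ρ z * ρ z} * U ρ ⊔ J := by
  rw [Submodule.mul_le]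
  intro a ha b hb
  obtain ⟨c, rfl⟩ := Submodule.mem_span_singleton.1 hb
  rw [mul_smul_comm]
  refine Submodule.smul_mem _ _ ?_
  have h : Submodule.span F {ρ z} * U ρ ≤
      Submodule.comap (LinearMap.mulRight F (ρ z))
        (Submodule.span F {ρ z * ρ z} * U ρ ⊔ J) := by
    rw [Submodule.mul_le]
    intro p hp q hq
    obtain ⟨d, rfl⟩ := Submodule.mem_span_singleton.1 hp
    rw [smul_mul_assoc]
    refine Submodule.smul_mem _ _ ?_
    rw [U_eq_span] at hq
    have h3 : Submodule.span F (Set.range fun l : List A => (l.map ρ).prod) ≤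
        Submodule.comap (LinearMap.mulLeft F (ρ z))
          (Submodule.comap (LinearMap.mulRight F (ρ z))
            (Submodule.span F {ρ z * ρ z} * U ρ ⊔ J)) := by
      rw [Submodule.span_le]
      rintro _ ⟨l, rfl⟩
      exact key_word hUJ hJU h1 h2 hz1 hz2 hz3 l.length l rfl
    exact h3 hq
  exact h ha

/-- `(Z U)^m ≤ Z^m U + J` for `m ≥ 1` -/
theorem key_pow : ∀ m : ℕ, (Submodule.span F {ρ z} * U ρ) ^ (m + 1) ≤
    Submodule.span F {ρ z ^ (m + 1)} * U ρ ⊔ J := by
  have hJU' : J * U ρ ≤ J := Submodule.mul_le.2 hJU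
  have hUJ' : U ρ * J ≤ J := Submodule.mul_le.2 hUJ
  have hZU : Submodule.span F {ρ z} ≤ U ρ := by
    rw [Submodule.span_singleton_le_iff_mem]
    exact rho_mem_U ρ z
  have hZmU : ∀ m, Submodule.span F {ρ z ^ m} ≤ U ρ := by
    intro m
    rw [Submodule.span_singleton_le_iff_mem]
    exact (Algebra.adjoin F (Set.range ρ)).pow_mem (rho_mem_U ρ z) m
  intro m
  induction m with
  | zero =>
    rw [zero_add, pow_one, pow_one]
    exact le_sup_left
  | succ m ih =>
    rw [pow_succ (Submodule.span F {ρ z} * U ρ) (m + 1)]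
    refine (mul_le_mul' ih le_rfl).trans ?_
    rw [Submodule.sup_mul]
    refine sup_le ?_ ?_
    · have e1 : Submodule.span F {ρ z ^ (m + 1)} =
          Submodule.span F {ρ z ^ m} * Submodule.span F {ρ z} := by
        rw [Submodule.span_mul_span, Set.singleton_mul_singleton, ← pow_succ]
      have e2 : Submodule.span F {ρ z ^ m} * Submodule.span F {ρ z * ρ z} =
          Submodule.span F {ρ z ^ (m + 1 + 1)} := by
        rw [Submodule.span_mul_span, Set.singleton_mul_singleton, ← mul_assoc, ← pow_succ,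
          ← pow_succ]
      calc Submodule.span F {ρ z ^ (m + 1)} * U ρ * (Submodule.span F {ρ z} * U ρ)
          = Submodule.span F {ρ z ^ m} *
            (Submodule.span F {ρ z} * U ρ * Submodule.span F {ρ z}) * U ρ := by
            rw [e1]; simp only [mul_assoc]
        _ ≤ Submodule.span F {ρ z ^ m} *
            (Submodule.span F {ρ z * ρ z} * U ρ ⊔ J) * U ρ :=
            mul_le_mul' (mul_le_mul' le_rfl
              (key_ZUZ hUJ hJU h1 h2 hz1 hz2 hz3)) le_rfl
        _ = Submodule.span F {ρ z ^ m} * Submodule.span F {ρ z * ρ z} * (U ρ * U ρ) ⊔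
            Submodule.span F {ρ z ^ m} * J * U ρ := by
            rw [Submodule.mul_sup, Submodule.sup_mul]; simp only [mul_assoc]
        _ ≤ _ := by
            refine sup_le ?_ ?_
            · rw [e2]
              exact (mul_le_mul' le_rfl (U_mul_U ρ)).trans le_sup_left
            · refine le_trans ?_ le_sup_right
              exact (mul_le_mul' ((mul_le_mul' (hZmU m) le_rfl).trans hUJ')
                le_rfl).trans hJU'
    · refine le_trans ?_ le_sup_right
      have : J * (Submodule.span F {ρ z} * U ρ) ≤ J * (U ρ * U ρ) :=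
        mul_le_mul' le_rfl (mul_le_mul' hZU le_rfl)
      exact this.trans ((mul_le_mul' le_rfl (U_mul_U ρ)).trans hJU')

/-- the ideal generated by `ρ z` is nilpotent modulo `J` -/
theorem key_ideal {n : ℕ} (hn : ρ z ^ (n + 1) = 0) :
    (U ρ * Submodule.span F {ρ z} * U ρ) ^ (n + 1) ≤ J := by
  rw [mul_assoc]
  refine (UW_pow ?_ n).trans ?_
  · rw [mul_assoc]
    exact mul_le_mul' le_rfl (U_mul_U ρ)
  · refine (mul_le_mul' le_rfl (key_pow hUJ hJU h1 h2 hz1 hz2 hz3 n)).trans ?_
    rw [hn, Submodule.span_zero_singleton, Submodule.bot_mul, bot_sup_eq]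
    exact Submodule.mul_le.2 hUJ

end key

end Pool.Agent.TH36.M2
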